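import Pool.Agent.Q289.PA.Count

/-!
# The Penney-Ante game against a uniformly random first player

`p_n^{rand,opt} = 2/3 + O(n / 2^n)`.
-/

set_option autoImplicit false

namespace Pool.Agent.Results.MP_988dcd_pr.TwoThirds

open Q289.PA

/-- for every `n ≥ 2`, the winning probability of Player II against a uniformly random first
player satisfies `2/3 - 4 (n - 1) / 2^n ≤ p_n ≤ 2/3 + (n - 1) / 2^n` -/
theorem result (n : ℕ) (hn : 2 ≤ n) :
    2 / 3 - 4 * ((n : ℝ) - 1) / 2 ^ n ≤ pRandOpt n ∧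
      pRandOpt n ≤ 2 / 3 + ((n : ℝ) - 1) / 2 ^ n :=
  ⟨lower hn, upper hn⟩

end Pool.Agent.Results.MP_988dcd_pr.TwoThirds
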